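import Pool.Agent.Lib.MP_f738c8_an.GC.All2

/-!
# Globally coupled affine circle maps: a unique acim for every size, with an explicit threshold
-/

open MeasureTheory Pool.Agent.Lib.MP_f738c8_an

namespace Pool.Agent.Results.MP_f738c8_an.AffineDegreeThree

/-- Let `g u = u` for `u ∈ (-1/2, 1/2)` and `g (1/2) = 0`, `T x = D x + c` on the circle, `|D| ≥ 3`,
`0 ≤ eps < (|D| - 2)/(|D| + 2)`, `N ≥ 1`, and `F` the coupled map on the torus of dimension `N`.
Then `F` has exactly one absolutely continuous invariant probability measure, and it is equivalent to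
Lebesgue measure. -/
theorem result :
    ∀ g : UnitAddCircle → ℝ, (∀ t : ℝ, |t| < 1 / 2 → g (t : UnitAddCircle) = t) →
      g ((1 / 2 : ℝ) : UnitAddCircle) = 0 →
    ∀ (D : ℤ) (c : UnitAddCircle) (T : UnitAddCircle → UnitAddCircle), 3 ≤ |D| →
      (∀ x, T x = D • x + c) →
    ∀ eps : ℝ, 0 ≤ eps → eps < (|(D : ℝ)| - 2) / (|(D : ℝ)| + 2) →
    ∀ N : ℕ, 1 ≤ N → ∀ F : (Fin N → UnitAddCircle) → (Fin N → UnitAddCircle),
      (∀ x i, F x i = T (x i + ((eps / N * ∑ j, g (x j - x i) : ℝ) : UnitAddCircle))) →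
    ∃ mu : Measure (Fin N → UnitAddCircle),
      (IsProbabilityMeasure mu ∧ mu ≪ volume ∧ ∀ A, MeasurableSet A → mu (F ⁻¹' A) = mu A) ∧
      volume ≪ mu ∧
      ∀ nu : Measure (Fin N → UnitAddCircle),
        (IsProbabilityMeasure nu ∧ nu ≪ volume ∧ ∀ A, MeasurableSet A → nu (F ⁻¹' A) = nu A) →
        nu = mu := by
  intro g hg hg2 D c T hD hT eps he0 he N hN F hF
  have e1 : g = GC.g := by
    funext u
    by_cases hu : ‖u‖ < 1 / 2
    · obtain ⟨t, h1, -, h3⟩ := GC.exists_rep u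
      rw [← h1, hg t (by rw [← h3]; exact hu), GC.g_coe (by rw [← h3]; exact hu)]
    · rw [GC.eq_half hu, hg2, GC.g_half]
  subst e1
  have e2 : F = GC.Fm D c eps N := by
    funext x i
    rw [hF, hT]
    rfl
  subst e2
  exact GC.main_equiv2 D c eps N hN hD he0 he

end Pool.Agent.Results.MP_f738c8_an.AffineDegreeThree
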